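import Pool.Agent.K3h22.E8.Stm8

/-! Brick TRD8: the transcendence degree of `y_1, …, y_n` over a domain. -/

set_option autoImplicit false

namespace Pool.Agent.K3h86.E8

open MvPolynomial
open Pool.Agent.K3h22.E8

/-- evaluation of a polynomial in `r + 1` variables as a polynomial in the first variable -/
theorem aeval_cons {A₀ K : Type} [CommRing A₀] [CommRing K] [Algebra A₀ K] {r : ℕ}
    (x : Fin (r + 1) → K) (p : MvPolynomial (Fin (r + 1)) A₀) :
    aeval x p = (finSuccEquiv A₀ r p).eval₂
      (aeval (fun b : Fin r => x b.succ) : MvPolynomial (Fin r) A₀ →ₐ[A₀] K).toRingHom (x 0) := by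
  have h : (aeval x : MvPolynomial (Fin (r + 1)) A₀ →ₐ[A₀] K).toRingHom =
      (Polynomial.eval₂RingHom
        (aeval (fun b : Fin r => x b.succ) : MvPolynomial (Fin r) A₀ →ₐ[A₀] K).toRingHom
        (x 0)).comp (finSuccEquiv A₀ r).toRingEquiv.toRingHom := by
    apply MvPolynomial.ringHom_ext
    · intro a
      have h1 : (finSuccEquiv A₀ r) (C a) = Polynomial.C (C a) := (finSuccEquiv A₀ r).commutes a
      show aeval x (C a) = Polynomial.eval₂ _ _ ((finSuccEquiv A₀ r) (C a))
      rw [h1, Polynomial.eval₂_C, aeval_C]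
      show _ = aeval _ (C a)
      rw [aeval_C]
    · intro i
      show aeval x (X i) = Polynomial.eval₂ _ _ ((finSuccEquiv A₀ r) (X i))
      refine Fin.cases ?_ (fun j => ?_) i
      · rw [finSuccEquiv_X_zero, Polynomial.eval₂_X, aeval_X]
      · rw [finSuccEquiv_X_succ, Polynomial.eval₂_C, aeval_X]
        show _ = aeval _ (X j)
        rw [aeval_X]
  exact RingHom.congr_fun h p

/-- brick TRD8 -/
theorem t_TRD8 : S_TRD8 := by
  intro A₀ K _ _ _ _ n r y _ h1 h2
  classical
  constructor
  · obtain ⟨κ, hκ, h⟩ := h1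
    refine ⟨Finset.univ.image κ, ?_, ?_⟩
    · rw [Finset.card_image_of_injective _ hκ, Finset.card_univ, Fintype.card_fin]
    · let e : Fin r ≃ {i // i ∈ Finset.univ.image κ} := Equiv.ofBijective
        (fun b => ⟨κ b, Finset.mem_image_of_mem κ (Finset.mem_univ b)⟩)
        ⟨fun a b hab => hκ (congrArg Subtype.val hab), fun ⟨i, hi⟩ => by
          obtain ⟨b, -, hb⟩ := Finset.mem_image.1 hi
          exact ⟨b, Subtype.ext hb⟩⟩
      have h4 : AlgebraicIndependent A₀ (fun b : Fin r => y (κ b)) :=
        algebraicIndependent_iff.2 fun p hp => h p hp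
      exact (algebraicIndependent_equiv' e (f := fun b : {i // i ∈ Finset.univ.image κ} => y b)
        (g := fun b : Fin r => y (κ b)) rfl).1 h4
  · intro B hB hind
    let e : Fin (r + 1) ≃ {i // i ∈ B} := (Fintype.equivFinOfCardEq (by simpa using hB)).symm
    have hx : AlgebraicIndependent A₀ (fun b : Fin (r + 1) => y (e b)) :=
      (algebraicIndependent_equiv' e (f := fun b : {i // i ∈ B} => y b)
        (g := fun b : Fin (r + 1) => y (e b)) rfl).2 hind
    have hκ : Function.Injective (fun b : Fin r => ((e b.succ : {i // i ∈ B}) : Fin n)) :=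
      fun a b hab => Fin.succ_injective _ (e.injective (Subtype.ext hab))
    have hx' : AlgebraicIndependent A₀ (fun b : Fin r => y (e b.succ)) :=
      hx.comp Fin.succ (Fin.succ_injective r)
    obtain ⟨g, hg0, hg⟩ := h2 (fun b : Fin r => ((e b.succ : {i // i ∈ B}) : Fin n)) hκ
      (fun p hp => algebraicIndependent_iff.1 hx' p hp) (e 0)
    apply hg0
    have h3 : (finSuccEquiv A₀ r).symm g = 0 := by
      apply algebraicIndependent_iff.1 hx
      rw [aeval_cons, AlgEquiv.apply_symm_apply]
      exact hg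
    rw [← (finSuccEquiv A₀ r).apply_symm_apply g, h3, map_zero]

end Pool.Agent.K3h86.E8
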